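import Pool.Agent.Y440.P.Dens

/-! The limit of the largest density. -/

set_option autoImplicit false

open Finset Filter

namespace Pool.Agent.Y440.P

open Pool.Agent.Y440.A (nin wt5 S_core S_even S_univ S_lower)

/-- largest number of members of a family of four-element sets with property `P` -/
noncomputable def exP (P : (n : ℕ) → Finset (Finset (Fin n)) → Prop) (n : ℕ) : ℕ :=
  sSup {m : ℕ | ∃ H : Finset (Finset (Fin n)), H ⊆ powersetCard 4 univ ∧ P n H ∧ H.card = m}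

theorem bdd (P : (n : ℕ) → Finset (Finset (Fin n)) → Prop) (n : ℕ) :
    BddAbove {m : ℕ | ∃ H : Finset (Finset (Fin n)), H ⊆ powersetCard 4 univ ∧ P n H ∧ H.card = m} := by
  refine ⟨n.choose 4, ?_⟩
  rintro m ⟨H, hH, _, rfl⟩
  have := card_le_card hH
  rw [card_powersetCard, card_univ, Fintype.card_fin] at this
  exact this

theorem lim (hu : S_univ) (hc : S_core) (hl : S_lower) (P : (n : ℕ) → Finset (Finset (Fin n)) → Prop)
    (h1 : ∀ (n : ℕ) (H : Finset (Finset (Fin n))), H ⊆ powersetCard 4 univ →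
      (∀ S ∈ powersetCard 5 (univ : Finset (Fin n)), Even (nin H S)) → P n H)
    (h2 : ∀ (n : ℕ) (H : Finset (Finset (Fin n))), H ⊆ powersetCard 4 univ → P n H →
      5 * fv H 5 + fv H 3 ≤ 3 * fv H 1) :
    Tendsto (fun n : ℕ => (exP P n : ℝ) / (n.choose 4 : ℝ)) atTop (nhds (11 / 16)) := by
  have hup : ∀ n : ℕ, 5 ≤ n → (exP P n : ℝ) / (n.choose 4 : ℝ) ≤ 11 / 16 + 300 / n := by
    intro n hn
    have hne : {m : ℕ | ∃ H : Finset (Finset (Fin n)), H ⊆ powersetCard 4 univ ∧ P n H ∧ H.card = m}.Nonempty := by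
      refine ⟨0, ∅, empty_subset _, h1 n ∅ (empty_subset _) ?_, card_empty⟩
      intro S _
      simp [nin]
    obtain ⟨H, hH, hP, hm⟩ := Nat.sSup_mem hne (bdd P n)
    have hd := univ_dens hu hc n hn H hH
    have hm' : H.card = exP P n := hm
    rw [hm'] at hd
    have h3 := h2 n H hH hP
    have h3' : 5 * (fv H 5 : ℝ) + fv H 3 ≤ 3 * fv H 1 := by exact_mod_cast h3
    have hp5 : (0 : ℝ) < (n.choose 5 : ℝ) := by
      exact_mod_cast Nat.choose_pos hn
    have h4 : (fv H 5 : ℝ) / (n.choose 5 : ℝ) + 1 / 5 * ((fv H 3 : ℝ) / (n.choose 5 : ℝ)) -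
        3 / 5 * ((fv H 1 : ℝ) / (n.choose 5 : ℝ)) ≤ 0 := by
      have e : (fv H 5 : ℝ) / (n.choose 5 : ℝ) + 1 / 5 * ((fv H 3 : ℝ) / (n.choose 5 : ℝ)) -
        3 / 5 * ((fv H 1 : ℝ) / (n.choose 5 : ℝ)) =
        (5 * (fv H 5 : ℝ) + fv H 3 - 3 * fv H 1) / (5 * (n.choose 5 : ℝ)) := by
        field_simp
      rw [e]
      apply div_nonpos_of_nonpos_of_nonneg
      · linarith
      · positivity
    linarith
  have hlo : ∀ ε : ℝ, 0 < ε → ∀ᶠ n : ℕ in atTop, 11 / 16 - ε ≤ (exP P n : ℝ) / (n.choose 4 : ℝ) := by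
    intro ε hε
    obtain ⟨N, hN⟩ := hl ε hε
    filter_upwards [eventually_ge_atTop N, eventually_ge_atTop 4] with n hn hn4
    obtain ⟨H, hH, hE, hb⟩ := hN n hn
    have hle : H.card ≤ exP P n := le_csSup (bdd P n) ⟨H, hH, h1 n H hH hE, rfl⟩
    have hp4 : (0 : ℝ) < (n.choose 4 : ℝ) := by
      exact_mod_cast Nat.choose_pos hn4
    rw [le_div_iff₀ hp4]
    exact hb.trans (by exact_mod_cast hle)
  have h300 : Tendsto (fun n : ℕ => (11 : ℝ) / 16 + 300 / (n : ℝ)) atTop (nhds (11 / 16)) := by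
    have := (tendsto_const_div_atTop_nhds_zero_nat (300 : ℝ)).const_add (11 / 16 : ℝ)
    rw [add_zero] at this
    exact this
  rw [Metric.tendsto_atTop] at h300 ⊢
  intro ε hε
  obtain ⟨N1, hN1⟩ := h300 ε hε
  obtain ⟨N2, hN2⟩ := eventually_atTop.1 (hlo (ε / 2) (by linarith))
  refine ⟨max 5 (max N1 N2), fun n hn => ?_⟩
  have a1 : 5 ≤ n := le_trans (le_max_left _ _) hn
  have a2 : N1 ≤ n := le_trans (le_trans (le_max_left _ _) (le_max_right _ _)) hn
  have a3 : N2 ≤ n := le_trans (le_trans (le_max_right _ _) (le_max_right _ _)) hn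
  have b1 := hup n a1
  have b2 := hN1 n a2
  have b3 := hN2 n a3
  rw [Real.dist_eq] at b2 ⊢
  rw [abs_lt] at b2 ⊢
  constructor
  · linarith
  · linarith [b2.2]

end Pool.Agent.Y440.P
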