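import Pool.Agent.Y440.A.Reps
import Pool.Agent.Y440.B.Blk
import Pool.Agent.Y440.K.Stm3

/-! The main inequality from its parts. -/

set_option autoImplicit false
set_option maxRecDepth 100000

open Finset
open Pool.Agent.Y440.A (Odd4 cd fl cd7 L8f D8f t7f C0 C1 C2 C3 C4 F0 F1 F2 F3 F4)

namespace Pool.Agent.Y440.P

theorem sym62 (hc : A.S_codes) (hi : K.S_inv) (hp : K.S_psd) {V : Type} {E : V → V → V → V → ℕ}
    (hE : Odd4 E) : A.Sym62 (K.kap E) := by
  constructor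
  · intro a b c d e f u v
    obtain ⟨h1, h2, h3, h4, _⟩ := hc V E hE a b c d e f
    unfold K.kap
    rw [h3, h4, h4]
    exact (hi _ h1 _ (h2 u) _ (h2 v)).1
  · intro a b c d e f u v
    obtain ⟨h1, h2, _, _, h3, h4, _⟩ := hc V E hE a b c d e f
    unfold K.kap
    rw [h3, h4, h4]
    exact (hi _ h1 _ (h2 u) _ (h2 v)).2.1
  · intro a b c d e f u v
    obtain ⟨h1, h2, _, _, _, _, h3, h4, _⟩ := hc V E hE a b c d e f
    unfold K.kap
    rw [h3, h4, h4]
    exact (hi _ h1 _ (h2 u) _ (h2 v)).2.2.1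
  · intro a b c d e f u v
    obtain ⟨h1, h2, _, _, _, _, _, _, h3, h4, _⟩ := hc V E hE a b c d e f
    unfold K.kap
    rw [h3, h4, h4]
    exact (hi _ h1 _ (h2 u) _ (h2 v)).2.2.2.1
  · intro a b c d e f u v
    obtain ⟨h1, h2, _, _, _, _, _, _, _, _, h3, h4⟩ := hc V E hE a b c d e f
    unfold K.kap
    rw [h3, h4, h4]
    exact (hi _ h1 _ (h2 u) _ (h2 v)).2.2.2.2
  · intro a b c d e f u v
    obtain ⟨h1, h2, _⟩ := hc V E hE a b c d e f
    unfold K.kap
    exact hp.1 _ h1 _ (h2 u) _ (h2 v)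

theorem reps_lt : ∀ r ∈ A.reps, r < 1048576 := by decide +kernel

/-- the inequality at eight points -/
theorem point (hc : A.S_codes) (hs : A.S_sym) (hw : A.S_wlog) (hr : A.S_reps) (hword : B.S_word)
    (hmin : B.S_min) (hblk : B.S_blk) (hi : K.S_inv) (hp : K.S_psd) (hl : K.S_leaf2)
    (hall : ∀ r ∈ A.reps, B.chkB K.leaf2 r = true)
    {V : Type} {E : V → V → V → V → ℕ} (hE : Odd4 E) (x : Fin 8 → V) :
    L8f (K.kap E) x ≤ 194381400000 * (8 * (D8f E x : ℤ) - 175) := by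
  obtain ⟨π, h1, h2⟩ := hw (fun r => r ∈ A.reps) V E hE (hr V E hE) x
  have hk := hblk K.leaf2 _ (reps_lt _ h1) (hall _ h1)
  have hx := hword (fun X => B.bc (B.mn X) (K.leaf2 X) true) V E hE (x ∘ π) hk
  have hm : B.mn (B.wd E (x ∘ π)) = true := hmin V E hE (x ∘ π) h2
  have hy : K.leaf2 (B.wd E (x ∘ π)) = true := by
    have h3 : B.bc (B.mn (B.wd E (x ∘ π))) (K.leaf2 (B.wd E (x ∘ π))) true = true := hx
    rw [hm] at h3
    exact h3
  have hz := hl V E hE (x ∘ π) hy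
  rw [hs.1 V (K.kap E) (sym62 hc hi hp hE) x π, (hs.2 V E hE).1 x π] at hz
  exact hz

/-- the main inequality from its parts -/
theorem core (hc : A.S_codes) (hs : A.S_sym) (hw : A.S_wlog) (hr : A.S_reps) (hword : B.S_word)
    (hmin : B.S_min) (hblk : B.S_blk) (hi : K.S_inv) (hp : K.S_psd) (hl : K.S_leaf2)
    (hall : ∀ r ∈ A.reps, B.chkB K.leaf2 r = true) (havg : A.S_avg) : A.S_core := by
  intro V _ E hE
  refine havg V (K.kap E) E 194381400000 (by norm_num) ?_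
    (fun x => point hc hs hw hr hword hmin hblk hi hp hl hall hE x)
  intro a b c d e f
  obtain ⟨h1, h2, _⟩ := hc V E hE a b c d e f
  exact hp.2 _ h1 V (fun u => fl E a b c d e f u) h2

end Pool.Agent.Y440.P
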