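import Pool.Agent.Y440.A.Stm

/-! From the universal inequality to densities. -/

set_option autoImplicit false

open Finset Filter

namespace Pool.Agent.Y440.P

open Pool.Agent.Y440.A (nin wt5 S_core S_even S_univ S_lower)

/-- number of five-element sets with exactly `k` members of `H` inside -/
def fv {n : ℕ} (H : Finset (Finset (Fin n))) (k : ℕ) : ℕ :=
  ((powersetCard 5 (univ : Finset (Fin n))).filter (fun S => nin H S = k)).card

theorem sup_card {n : ℕ} (Q : Finset (Fin n)) (hQ : Q.card = 4) :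
    ((powersetCard 5 (univ : Finset (Fin n))).filter (fun P => Q ⊆ P)).card = n - 4 := by
  have h1 : (powersetCard 5 (univ : Finset (Fin n))).filter (fun P => Q ⊆ P) =
      (univ \ Q).image (fun v => insert v Q) := by
    ext P
    rw [mem_filter, mem_powersetCard, mem_image]
    constructor
    · rintro ⟨⟨_, hP⟩, hQP⟩
      have h2 : (P \ Q).card = 1 := by rw [card_sdiff_of_subset hQP, hP, hQ]
      obtain ⟨v, hv⟩ := card_eq_one.1 h2
      have hv2 : v ∈ P \ Q := by rw [hv]; exact mem_singleton_self v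
      refine ⟨v, Finset.mem_sdiff.2 ⟨mem_univ v, (Finset.mem_sdiff.1 hv2).2⟩, ?_⟩
      rw [insert_eq, ← hv, sdiff_union_of_subset hQP]
    · rintro ⟨v, hv, rfl⟩
      have hv' : v ∉ Q := (Finset.mem_sdiff.1 hv).2
      exact ⟨⟨subset_univ _, by rw [card_insert_of_notMem hv', hQ]⟩, subset_insert _ _⟩
  rw [h1, card_image_of_injOn, card_sdiff_of_subset (subset_univ _), card_univ, Fintype.card_fin, hQ]
  intro v hv w hw h
  have hv' : v ∉ Q := (Finset.mem_sdiff.1 hv).2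
  have h2 : v ∈ insert w Q := by
    have : v ∈ insert v Q := mem_insert_self v Q
    have e : insert v Q = insert w Q := h
    rw [e] at this
    exact this
  rcases mem_insert.1 h2 with h3 | h3
  · exact h3
  · exact absurd h3 hv'

theorem sum_nin {n : ℕ} (H : Finset (Finset (Fin n))) (hH : H ⊆ powersetCard 4 univ) :
    ∑ P ∈ powersetCard 5 (univ : Finset (Fin n)), nin H P = (n - 4) * H.card := by
  have h1 : ∀ P : Finset (Fin n), nin H P = ∑ Q ∈ H, if Q ⊆ P then 1 else 0 := fun P => by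
    unfold nin; rw [card_filter]
  simp only [h1]
  rw [sum_comm]
  have h2 : ∀ Q ∈ H, ∑ P ∈ powersetCard 5 (univ : Finset (Fin n)), (if Q ⊆ P then 1 else 0) = n - 4 := by
    intro Q hQ
    rw [← card_filter]
    exact sup_card Q (mem_powersetCard.1 (hH hQ)).2
  rw [sum_congr rfl h2, sum_const, smul_eq_mul, mul_comm]

theorem nin_le {n : ℕ} (H : Finset (Finset (Fin n))) (hH : H ⊆ powersetCard 4 univ)
    (P : Finset (Fin n)) (hP : P.card = 5) : nin H P ≤ 5 := by
  unfold nin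
  have h1 : H.filter (· ⊆ P) ⊆ powersetCard 4 P := by
    intro Q hQ
    rw [mem_filter] at hQ
    exact mem_powersetCard.2 ⟨hQ.2, (mem_powersetCard.1 (hH hQ.1)).2⟩
  have h2 := card_le_card h1
  rw [card_powersetCard, hP] at h2
  exact h2

theorem wt5_eq (k : ℕ) (hk : k ≤ 5) : (wt5 k : ℤ) = 5 - k - 3 * (if k = 1 then 1 else 0) +
    (if k = 3 then 1 else 0) + 5 * (if k = 5 then 1 else 0) := by
  interval_cases k <;> simp [wt5]

theorem sum_wt5 {n : ℕ} (H : Finset (Finset (Fin n))) (hH : H ⊆ powersetCard 4 univ) :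
    ((∑ P ∈ powersetCard 5 (univ : Finset (Fin n)), wt5 (nin H P) : ℕ) : ℤ) =
      5 * (n.choose 5 : ℤ) - ((n - 4 : ℕ) : ℤ) * H.card - 3 * fv H 1 + fv H 3 + 5 * fv H 5 := by
  have hf : ∀ k, (fv H k : ℤ) = ∑ P ∈ powersetCard 5 (univ : Finset (Fin n)), if nin H P = k then 1 else 0 := by
    intro k
    unfold fv
    rw [card_filter]
    push_cast
    rfl
  have hs : (((n - 4 : ℕ) : ℤ) * H.card) = ∑ P ∈ powersetCard 5 (univ : Finset (Fin n)), (nin H P : ℤ) := by
    have := sum_nin H hH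
    have h2 : ((∑ P ∈ powersetCard 5 (univ : Finset (Fin n)), nin H P : ℕ) : ℤ) = (((n - 4) * H.card : ℕ) : ℤ) := by
      rw [this]
    push_cast at h2 ⊢
    rw [h2]
  have hc : (n.choose 5 : ℤ) = ∑ P ∈ powersetCard 5 (univ : Finset (Fin n)), (1 : ℤ) := by
    rw [sum_const, card_powersetCard, card_univ, Fintype.card_fin]; simp
  rw [hf, hf, hf, hs, hc]
  push_cast
  rw [mul_sum, mul_sum, mul_sum, ← sum_sub_distrib, ← sum_sub_distrib, ← sum_add_distrib,
    ← sum_add_distrib]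
  refine sum_congr rfl fun P hP => ?_
  have h1 := wt5_eq (nin H P) (nin_le H hH P (mem_powersetCard.1 hP).2)
  rw [h1]
  split_ifs <;> ring

/-- the universal inequality, in whole numbers -/
theorem univ_int (hu : S_univ) (hc : S_core) (n : ℕ) (H : Finset (Finset (Fin n)))
    (hH : H ⊆ powersetCard 4 univ) :
    5 * (n : ℤ) ^ 5 + 384 * (((n - 4 : ℕ) : ℤ) * H.card) + 1152 * fv H 1 ≤
      1920 * (n.choose 5 : ℤ) + 200 * (n : ℤ) ^ 4 + 384 * fv H 3 + 1920 * fv H 5 := by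
  have h1 := hu hc n H hH
  have h2 := sum_wt5 H hH
  have h3 : (5 * (n : ℤ) ^ 5) ≤ 384 * ((∑ P ∈ powersetCard 5 (univ : Finset (Fin n)), wt5 (nin H P) : ℕ) : ℤ) +
      200 * (n : ℤ) ^ 4 := by exact_mod_cast h1
  rw [h2] at h3
  linarith

theorem choose5 (n : ℕ) : (120 : ℝ) * (n.choose 5 : ℝ) = n * (n - 1) * (n - 2) * (n - 3) * (n - 4) := by
  have h := Nat.cast_choose_eq_ascPochhammer_div ℝ n 5
  rcases lt_or_ge n 5 with h5 | h5
  · rw [Nat.choose_eq_zero_of_lt h5]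
    interval_cases n <;> norm_num
  · have h1 : n.descFactorial 5 = 120 * n.choose 5 := by
      rw [Nat.descFactorial_eq_factorial_mul_choose]; rfl
    have h2 : ((n.descFactorial 5 : ℕ) : ℝ) = n * (n - 1) * (n - 2) * (n - 3) * (n - 4) := by
      obtain ⟨m, rfl⟩ := Nat.exists_eq_add_of_le h5
      simp only [Nat.descFactorial_succ, Nat.descFactorial_zero]
      have e1 : 5 + m - 4 = m + 1 := by omega
      have e2 : 5 + m - 3 = m + 2 := by omega
      have e3 : 5 + m - 2 = m + 3 := by omega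
      have e4 : 5 + m - 1 = m + 4 := by omega
      have e0 : 5 + m - 0 = m + 5 := by omega
      rw [e1, e2, e3, e4, e0]
      push_cast
      ring
    rw [← h2, h1]
    push_cast
    ring

theorem choose4 (n : ℕ) : (24 : ℝ) * (n.choose 4 : ℝ) = n * (n - 1) * (n - 2) * (n - 3) := by
  rcases lt_or_ge n 4 with h5 | h5
  · rw [Nat.choose_eq_zero_of_lt h5]
    interval_cases n <;> norm_num
  · have h1 : n.descFactorial 4 = 24 * n.choose 4 := by
      rw [Nat.descFactorial_eq_factorial_mul_choose]; rfl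
    have h2 : ((n.descFactorial 4 : ℕ) : ℝ) = n * (n - 1) * (n - 2) * (n - 3) := by
      obtain ⟨m, rfl⟩ := Nat.exists_eq_add_of_le h5
      simp only [Nat.descFactorial_succ, Nat.descFactorial_zero]
      have e2 : 4 + m - 3 = m + 1 := by omega
      have e3 : 4 + m - 2 = m + 2 := by omega
      have e4 : 4 + m - 1 = m + 3 := by omega
      have e0 : 4 + m - 0 = m + 4 := by omega
      rw [e2, e3, e4, e0]
      push_cast
      ring
    rw [← h2, h1]
    push_cast
    ring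

/-- the universal inequality, in densities -/
theorem univ_dens (hu : S_univ) (hc : S_core) (n : ℕ) (hn : 5 ≤ n) (H : Finset (Finset (Fin n)))
    (hH : H ⊆ powersetCard 4 univ) :
    (H.card : ℝ) / (n.choose 4 : ℝ) ≤ 11 / 16 + (fv H 5 : ℝ) / (n.choose 5 : ℝ) +
      1 / 5 * ((fv H 3 : ℝ) / (n.choose 5 : ℝ)) - 3 / 5 * ((fv H 1 : ℝ) / (n.choose 5 : ℝ)) + 300 / n := by
  have h1 := univ_int hu hc n H hH
  have h2 : 5 * (n : ℝ) ^ 5 + 384 * (((n : ℝ) - 4) * H.card) + 1152 * fv H 1 ≤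
      1920 * (n.choose 5 : ℝ) + 200 * (n : ℝ) ^ 4 + 384 * fv H 3 + 1920 * fv H 5 := by
    have h3 : ((n - 4 : ℕ) : ℤ) = (n : ℤ) - 4 := by omega
    rw [h3] at h1
    exact_mod_cast h1
  have h5 := choose5 n
  have h4 := choose4 n
  have hn' : (5 : ℝ) ≤ n := by exact_mod_cast hn
  obtain ⟨z, hz⟩ : ∃ z : ℝ, (n : ℝ) = z + 5 := ⟨(n : ℝ) - 5, by ring⟩
  have hz0 : 0 ≤ z := by linarith
  have hp4 : (0 : ℝ) < (n.choose 4 : ℝ) := by
    exact_mod_cast Nat.choose_pos (by omega)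
  have hp5 : (0 : ℝ) < (n.choose 5 : ℝ) := by
    exact_mod_cast Nat.choose_pos hn
  have h45 : 5 * (n.choose 5 : ℝ) = (n.choose 4 : ℝ) * ((n : ℝ) - 4) := by
    have : (120 : ℝ) * (n.choose 5 : ℝ) = 24 * (n.choose 4 : ℝ) * ((n : ℝ) - 4) := by
      rw [h5, h4]
    linarith
  have hq : (H.card : ℝ) / (n.choose 4 : ℝ) = (((n : ℝ) - 4) * H.card) / (5 * (n.choose 5 : ℝ)) := by
    rw [h45, div_eq_div_iff (ne_of_gt hp4) (by
      have : (0 : ℝ) < (n : ℝ) - 4 := by linarith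
      positivity)]
    ring
  have hmain : 16 * (n : ℝ) ^ 5 * 0 ≤ 1 := by norm_num
  have hpoly : (11 : ℝ) / 16 * (1920 * (n.choose 5 : ℝ)) + 300 / n * (1920 * (n.choose 5 : ℝ)) ≥
      1920 * (n.choose 5 : ℝ) + 200 * (n : ℝ) ^ 4 - 5 * (n : ℝ) ^ 5 := by
    have e1 : 300 / (n : ℝ) * (1920 * (n.choose 5 : ℝ)) =
        4800 * (((n : ℝ) - 1) * (n - 2) * (n - 3) * (n - 4)) := by
      have : 1920 * (n.choose 5 : ℝ) = 16 * (n * (n - 1) * (n - 2) * (n - 3) * (n - 4)) := by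
        rw [← h5]; ring
      rw [this]
      field_simp
      ring
    have e2 : 1920 * (n.choose 5 : ℝ) = 16 * (n * (n - 1) * (n - 2) * (n - 3) * (n - 4)) := by
      rw [← h5]; ring
    rw [e1, e2, hz]
    have : 0 ≤ z ^ 2 ∧ 0 ≤ z ^ 3 ∧ 0 ≤ z ^ 4 ∧ 0 ≤ z ^ 5 := ⟨by positivity, by positivity, by positivity, by positivity⟩
    nlinarith [this.1, this.2.1, this.2.2.1, this.2.2.2]
  rw [hq, div_le_iff₀ (by positivity)]
  have e3 : (11 / 16 + (fv H 5 : ℝ) / (n.choose 5 : ℝ) +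
      1 / 5 * ((fv H 3 : ℝ) / (n.choose 5 : ℝ)) - 3 / 5 * ((fv H 1 : ℝ) / (n.choose 5 : ℝ)) + 300 / n) *
      (5 * (n.choose 5 : ℝ)) = 5 * fv H 5 + fv H 3 - 3 * fv H 1 +
      (11 / 16 + 300 / n) * (5 * (n.choose 5 : ℝ)) := by
    field_simp
    ring
  rw [e3]
  have e4 : (11 / 16 + 300 / (n : ℝ)) * (5 * (n.choose 5 : ℝ)) * 384 =
    (11 : ℝ) / 16 * (1920 * (n.choose 5 : ℝ)) + 300 / n * (1920 * (n.choose 5 : ℝ)) := by ring
  linarith

end Pool.Agent.Y440.P
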