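import Pool.Agent.Y440.P.Core
import Pool.Agent.Y440.L.All
import Pool.Agent.Y37.Q440.Codes
import Pool.Agent.Y79.Q440.Sym
import Pool.Agent.Y971.Q440.Wlog
import Pool.Agent.Y914.Q440.Reps
import Pool.Agent.Y333.Q440.WordT
import Pool.Agent.Y363.Q440.Fields
import Pool.Agent.Y515.Q440.Blk
import Pool.Agent.Y665.Q440.Y7
import Pool.Agent.Y888.Q440.Val
import Pool.Agent.Y954.Q440.Idx
import Pool.Agent.Y779.Q440.Psd
import Pool.Agent.Y809.Q440.Inv
import Pool.Agent.Y664.Q440.Leaf2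
import Pool.Agent.Y781.Q440.Avg

/-! The main inequality. -/

set_option autoImplicit false

namespace Pool.Agent.Y440.P

theorem inv : K.S_inv := Pool.Agent.Y809.Q440.t Pool.Agent.Y888.Q440.t Pool.Agent.Y954.Q440.t

theorem psd : K.S_psd := Pool.Agent.Y779.Q440.t Pool.Agent.Y888.Q440.t Pool.Agent.Y954.Q440.t

theorem leaf2 : K.S_leaf2 := Pool.Agent.Y664.Q440.t Pool.Agent.Y888.Q440.t Pool.Agent.Y954.Q440.t
  Pool.Agent.Y363.Q440.t1 Pool.Agent.Y665.Q440.t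

theorem main : A.S_core :=
  core Pool.Agent.Y37.Q440.t Pool.Agent.Y79.Q440.t (Pool.Agent.Y971.Q440.t Pool.Agent.Y79.Q440.t)
    (Pool.Agent.Y914.Q440.t Pool.Agent.Y37.Q440.t) Pool.Agent.Y333.Q440.t Pool.Agent.Y363.Q440.t2
    Pool.Agent.Y515.Q440.t_blk inv psd leaf2 L.all Pool.Agent.Y781.Q440.t

end Pool.Agent.Y440.P
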